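import Pool.Agent.R368.Deg.Defs

/-!
# The equation `[d, γ] = -γ`: definitions
-/

open CategoryTheory CategoryTheory.Limits AlgebraicGeometry
open Pool.Agent.H914 Pool.Agent.H914.VarClass Pool.Agent.H914.VarClass.Obj
open Pool.Agent.R903 Pool.Agent.R368

universe u v w

namespace Pool.Agent.R368

/-- `T` acts on the kernel of `f` on `U` as multiplication by `q`. -/
def ScalesKernel {A : Type v} [CommRing A] [Algebra ℚ A] {H : Type w} [Ring H] (f : A →+* H)
    (U : Submodule ℚ A) (T : A →ₗ[ℚ] A) (q : ℚ) : Prop :=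
  ∀ x ∈ U, f x = 0 → T x = q • x

/-- The kernel of `f` on `U` is zero. -/
def KernelZero {A : Type v} [CommRing A] [Algebra ℚ A] {H : Type w} [Ring H] (f : A →+* H)
    (U : Submodule ℚ A) : Prop :=
  ∀ x ∈ U, f x = 0 → x = 0

/-- The subspace `U` is zero. -/
def SubZero {K : Type w} [Field K] {V : Type w} [AddCommGroup V] [Module K V]
    (U : Submodule K V) : Prop :=
  ∀ a ∈ U, a = 0

/-- `T` kills the subspace `U`. -/
def VanishesOnSub {K : Type w} [Field K] {V : Type w} [AddCommGroup V] [Module K V]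
    (U : Submodule K V) (T : V →ₗ[K] V) : Prop :=
  ∀ a ∈ U, T a = 0

variable {k : Type u} [Field k] {𝒱 : VarClass k} {C : ChowTheory.{u, v} 𝒱}

/-- `[d, γ] = d ∘ γ - γ ∘ d` is equal to `-γ` for all homologically trivial `γ` in
`CH^(dim X)(X × X)`. -/
def LowersByOne (W : WeilTheory.{u, v, w} C) (X : 𝒱.Obj) (d : C.CH (X.prod X)) : Prop :=
  ∀ γ, HomTriv W X γ → adOp C 1 d γ = 0

/-- `d` acts on `CH^i(X)_hom` as multiplication by `2i - 1`, for all `i`. -/
def ActsByWeight (W : WeilTheory.{u, v, w} C) (X : 𝒱.Obj) (d : C.CH (X.prod X)) : Prop :=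
  ∀ i : ℕ, ScalesKernel (W.cl X) (C.gr X i) (C.act d) (2 * i - 1)

/-- The correspondence `p` in `CH^(dim X)(X × X)` satisfies: if it acts as zero on `H^(2m-1)(X)`
then it acts as zero on `CH^m(X)_hom`, for all `m ≥ 1`. -/
def Vanishing (W : WeilTheory.{u, v, w} C) (X : 𝒱.Obj) (p : C.CH (X.prod X)) : Prop :=
  ∀ j m : ℕ, j + 1 = 2 * m → VanishesOnSub (W.gr X j) (W.act p) →
    ScalesKernel (W.cl X) (C.gr X m) (C.act p) 0

/-- The vanishing for the motives `M = (X, p)`: if `H^(2m-1)(M) = 0` then `CH^m(M)_hom = 0`. -/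
def VanishingForMotives (W : WeilTheory.{u, v, w} C) (X : 𝒱.Obj) : Prop :=
  ∀ p ∈ C.gr (X.prod X) X.dim, C.comp p p = p → Vanishing W X p

/-- The vanishing for all correspondences in `CH^(dim X)(X × X)`. -/
def VanishingForAll (W : WeilTheory.{u, v, w} C) (X : 𝒱.Obj) : Prop :=
  ∀ p ∈ C.gr (X.prod X) X.dim, Vanishing W X p

/-- For each Chow–Künneth decomposition `π` of `X` and all `i`, `j ≠ 2i - 1` the projector `π_j`
kills `CH^i(X)_hom`. -/
def OnePiece (W : WeilTheory.{u, v, w} C) (X : 𝒱.Obj) : Prop :=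
  ∀ π : ℕ → C.CH (X.prod X), W.IsCK X π → ∀ i j : ℕ, j + 1 ≠ 2 * i →
    ScalesKernel (W.cl X) (C.gr X i) (C.act (π j)) 0

/-- The statement for `X`: if `H^(2m-1)(X) = 0`, `m ≥ 1`, then `CH^m(X)_hom = 0`. -/
def VanishingForVariety (W : WeilTheory.{u, v, w} C) (X : 𝒱.Obj) : Prop :=
  ∀ j m : ℕ, j + 1 = 2 * m → SubZero (W.gr X j) → KernelZero (W.cl X) (C.gr X m)

end Pool.Agent.R368
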