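import Pool.Agent.R368.One.Defs
import Pool.Agent.R368.Deg.Main

/-!
# The equation `[d, γ] = -γ`
-/

open CategoryTheory CategoryTheory.Limits AlgebraicGeometry Polynomial
open Pool.Agent.H914 Pool.Agent.H914.VarClass Pool.Agent.H914.VarClass.Obj
open Pool.Agent.R903 Pool.Agent.R903.WeilTheory

universe u v w

namespace Pool.Agent.R368

variable {k : Type u} [Field k] {𝒱 : VarClass k} {C : ChowTheory.{u, v} 𝒱}
  {W : WeilTheory.{u, v, w} C} {X : 𝒱.Obj}

lemma act_neg' (γ : C.CH (X.prod X)) : C.act (-γ) = -C.act γ := by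
  ext x
  rw [← neg_one_smul ℚ γ, C.act_smul, LinearMap.smul_apply, LinearMap.neg_apply, neg_one_smul]

lemma one_ne_zero_of (hP : C.Polarized) (X : 𝒱.Obj) : (1 : W.H X) ≠ 0 := by
  intro h
  obtain ⟨D, _, hdeg⟩ := hP X
  apply hdeg
  have h1 : (C.deg X (D ^ X.dim) : W.K) = 0 := by
    rw [← W.tr_cl, ← mul_one (W.cl X (D ^ X.dim)), h, mul_zero, map_zero]
  exact_mod_cast h1

lemma LowersByOne.eq {d γ : C.CH (X.prod X)} (h : LowersByOne W X d) (hγ : HomTriv W X γ) :
    C.comp γ d - C.comp d γ = -γ := by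
  have h1 := h γ hγ
  rw [adOp_apply, one_smul] at h1
  exact (neg_eq_of_add_eq_zero_right h1).symm

lemma LowersByOne.eq_zero {d γ : C.CH (X.prod X)} (h : LowersByOne W X d) (hγ : HomTriv W X γ)
    {q : ℚ} (hq : q + 1 ≠ 0) (h1 : C.comp γ d - C.comp d γ = q • γ) : γ = 0 := by
  have h2 := h.eq hγ
  rw [h1] at h2
  have h3 : (q + 1) • γ = 0 := by rw [add_smul, one_smul, h2]; abel
  exact (smul_eq_zero.1 h3).resolve_left hq

theorem LowersByOne.pol_eq {d : C.CH (X.prod X)} (hd : W.IsDegree X d) (h : LowersByOne W X d) :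
    aeval (CorrRing.of C X d) (pol (Finset.range (2 * X.dim + 1))) = 0 := by
  have h1 := h.eq_zero (homTriv_pol hd) (q := 0) (by norm_num) (by
    rw [comp_comm_pol, sub_self, zero_smul])
  exact (LinearEquiv.map_eq_zero_iff _).1 h1

/-- Homologically trivial correspondences compose to zero. -/
theorem LowersByOne.comp_eq_zero {d γ γ' : C.CH (X.prod X)} (h : LowersByOne W X d)
    (hγ : HomTriv W X γ) (hγ' : HomTriv W X γ') : C.comp γ γ' = 0 := by
  refine h.eq_zero (hγ.comp_right hγ'.1) (q := -2) (by norm_num) ?_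
  have e1 : C.comp (C.comp γ γ') d = C.comp γ (C.comp d γ') - C.comp γ γ' := by
    have := h.eq hγ'
    rw [sub_eq_iff_eq_add] at this
    rw [C.comp_assoc, this, C.comp_add, comp_neg]
    abel
  have e2 : C.comp d (C.comp γ γ') = C.comp (C.comp γ d) γ' + C.comp γ γ' := by
    have := h.eq hγ
    rw [sub_eq_iff_eq_add] at this
    rw [← C.comp_assoc, this, C.add_comp, neg_comp]
    abel
  rw [e1, e2, ← C.comp_assoc]
  module

/-- All degree operators satisfy the equation. -/
theorem LowersByOne.all {d d' : C.CH (X.prod X)} (hd : W.IsDegree X d) (h : LowersByOne W X d)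
    (hd' : W.IsDegree X d') : LowersByOne W X d' := by
  have hν : HomTriv W X (d' - d) := by
    refine ⟨Submodule.sub_mem _ hd'.1 hd.1, fun c => ?_⟩
    refine gr_induction (W.isInternal X) (p := fun c => W.act (d' - d) c = 0) ?_ ?_ c
    · intro l a ha
      rw [W.act_sub, LinearMap.sub_apply, hd.2 l a ha, hd'.2 l a ha, sub_self]
    · intro a b ha hb
      rw [map_add, ha, hb, add_zero]
  intro γ hγ
  have h1 := h.comp_eq_zero hγ hν
  have h2 := h.comp_eq_zero hν hγ
  rw [comp_sub, sub_eq_zero] at h1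
  rw [sub_comp, sub_eq_zero] at h2
  rw [adOp_apply, one_smul, h1, h2, h.eq hγ]
  abel

theorem LowersByOne.actsByWeight (hP : C.Polarized) {d : C.CH (X.prod X)} (hd : W.IsDegree X d)
    (h : LowersByOne W X d) : ActsByWeight W X d := by
  intro i x hx hcl
  by_cases hi : X.dim < i
  · rw [C.gr_eq_bot X i hi, Submodule.mem_bot] at hx
    rw [hx, map_zero, smul_zero]
  obtain ⟨D, hD, hdeg⟩ := hP X
  have hpow : ∀ m, D ^ m ∈ C.gr X m := by
    intro m
    induction m with
    | zero => rw [pow_zero]; exact C.one_mem X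
    | succ m ih => rw [pow_succ]; exact C.mul_mem ih hD
  set y := D ^ (X.dim - i) with hy
  have hγ : HomTriv W X (C.ext y x) := by
    refine ⟨?_, fun c => ?_⟩
    · have := C.ext_mem (hpow (X.dim - i)) hx
      rwa [Nat.sub_add_cancel (by omega)] at this
    · rw [act_apply, ChowTheory.ext, W.cl_mul, W.cl_pull (snd X X), hcl, map_zero, mul_zero,
        zero_mul, map_zero]
  have h1 := congrArg (fun γ => C.act γ (D ^ i)) (h.eq hγ)
  have hneg : C.act (-(C.ext y x)) = -C.act (C.ext y x) := act_neg' _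
  simp only [C.act_sub, LinearMap.sub_apply, C.act_comp, C.act_ext, hneg, LinearMap.neg_apply,
    map_smul] at h1
  have hyy : D ^ i * y = D ^ X.dim := by rw [hy, ← pow_add, Nat.add_sub_cancel' (by omega)]
  have hdeg' : C.deg X (C.act d (D ^ i) * y) = (2 * i : ℚ) * C.deg X (D ^ X.dim) := by
    have h1 : (C.deg X (C.act d (D ^ i) * y) : W.K) =
        (((2 * i : ℚ) * C.deg X (D ^ X.dim) : ℚ) : W.K) := by
      rw [← W.tr_cl, W.cl_mul, W.cl_act, hd.2 _ _ (W.cl_mem (hpow i)), smul_mul_assoc, map_smul,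
        ← W.cl_mul, hyy, W.tr_cl]
      push_cast
      rfl
    exact_mod_cast h1
  rw [hyy, hdeg'] at h1
  have h2 : C.deg X (D ^ X.dim) • (C.act d x - ((2 * i : ℚ) - 1) • x) = 0 := by
    have h3 : C.deg X (D ^ X.dim) • C.act d x =
        (2 * i * C.deg X (D ^ X.dim)) • x - C.deg X (D ^ X.dim) • x := by
      rw [sub_eq_iff_eq_add] at h1
      rw [h1]; abel
    rw [smul_sub, h3]
    module
  exact sub_eq_zero.1 ((smul_eq_zero.1 h2).resolve_left hdeg)

theorem lowersByOne_of_square {d : C.CH (X.prod X)}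
    (h : ActsByWeight W (X.prod X) (degHom C d d)) : LowersByOne W X d := by
  intro γ hγ
  have h1 := h X.dim γ hγ.1 (cl_eq_zero_of_isZeroMap hγ.2)
  have h2 : C.act (degHom C d d) γ = adOp C (2 * X.dim : ℚ) d γ := congrFun (act_degHom d) γ
  rw [h2, adOp_apply, sub_smul, one_smul] at h1
  rw [adOp_apply, one_smul]
  have h3 : C.comp γ d - C.comp d γ = -γ := by
    have := congrArg (fun z => z - (2 * X.dim : ℚ) • γ) h1
    simp only [add_sub_cancel_left] at this
    rw [this]; abel
  rw [h3]; abel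

/-- The action of a homologically trivial correspondence on homologically trivial cycles. -/
theorem LowersByOne.act_eq_zero (hP : C.Polarized) {d γ : C.CH (X.prod X)} (hd : W.IsDegree X d)
    (h : LowersByOne W X d) (hγ : HomTriv W X γ) {m : ℕ} {x : C.CH X} (hx : x ∈ C.gr X m)
    (hcl : W.cl X x = 0) : C.act γ x = 0 := by
  have hw := h.actsByWeight hP hd
  have h1 := congrArg (fun γ => C.act γ x) (h.eq hγ)
  have hneg : C.act (-γ) = -C.act γ := act_neg' _
  simp only [C.act_sub, LinearMap.sub_apply, C.act_comp, hneg, LinearMap.neg_apply] at h1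
  have h2 : C.act d (C.act γ x) = ((2 * m : ℚ) - 1) • C.act γ x := by
    refine hw m _ (C.act_mem hγ.1 hx rfl) ?_
    rw [W.cl_act, hγ.2]
  rw [hw m x hx hcl, h2, map_smul, sub_self] at h1
  exact neg_eq_zero.1 h1.symm

theorem LowersByOne.lagCK_act (hP : C.Polarized) {d : C.CH (X.prod X)} (hd : W.IsDegree X d)
    (h : LowersByOne W X d) {m : ℕ} {x : C.CH X} (hx : x ∈ C.gr X m) (hcl : W.cl X x = 0) (j : ℕ)
    (hj : j + 1 ≠ 2 * m) : C.act (lagCK d j) x = 0 := by
  have h0 := h.pol_eq hd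
  have hw := h.actsByWeight hP hd
  have h1 : C.act (C.comp d (lagCK d j)) x = (j : ℚ) • C.act (lagCK d j) x := by
    rw [comp_lagCK h0, C.act_smul, LinearMap.smul_apply]
  rw [C.act_comp, hw m x hx hcl, map_smul] at h1
  have h2 : ((2 * m : ℚ) - 1 - j) • C.act (lagCK d j) x = 0 := by
    rw [sub_smul, h1, sub_self]
  refine (smul_eq_zero.1 h2).resolve_left ?_
  intro h3
  apply hj
  have : (j : ℚ) + 1 = 2 * m := by linarith
  exact_mod_cast this

theorem LowersByOne.vanishingForAll (hP : C.Polarized) {d : C.CH (X.prod X)}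
    (hd : W.IsDegree X d) (h : LowersByOne W X d) : VanishingForAll W X := by
  intro p hp j m hjm hpj x hx hcl
  have h0 := h.pol_eq hd
  have hCK := lagCK_isCK hd h0
  rw [zero_smul]
  have e1 : C.act p x = C.act (C.comp (lagCK d j) p) x := by
    rw [C.act_comp]
    congr 1
    conv_lhs => rw [← hCK.sum_act x]
    by_cases hj : j < 2 * X.dim + 1
    · rw [Finset.sum_eq_single j]
      · intro i _ hi
        exact h.lagCK_act hP hd hx hcl i (by omega)
      · intro h1; exact absurd (Finset.mem_range.2 hj) h1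
    · rw [hCK.eq_zero (by omega), C.act_zero, LinearMap.zero_apply]
      exact Finset.sum_eq_zero fun i hi =>
        h.lagCK_act hP hd hx hcl i (by have := Finset.mem_range.1 hi; omega)
  rw [e1]
  refine h.act_eq_zero hP hd ⟨C.comp_mem (hCK.mem j) hp rfl, fun c => ?_⟩ hx hcl
  rw [W.act_comp _ hp]
  refine gr_induction (W.isInternal X) (p := fun c => W.act p (W.act (lagCK d j) c) = 0) ?_ ?_ c
  · intro l a ha
    rw [hCK.proj j l a ha]
    split_ifs with hl
    · subst hl; exact hpj a ha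
    · rw [map_zero]
  · intro a b ha hb
    rw [map_add, map_add, ha, hb, add_zero]

theorem onePiece_of (hP : C.Polarized) (h : VanishingForMotives W X) : OnePiece W X := by
  intro π hπ i j hij x hx hcl
  by_cases hi : i = 0
  · -- homologically trivial classes in codimension zero
    subst hi
    obtain ⟨q, rfl⟩ := ChowTheory.gr_zero hx
    rw [W.cl_smul, map_one] at hcl
    have hq : (q : W.K) = 0 := (smul_eq_zero.1 hcl).resolve_right (one_ne_zero_of hP X)
    have hq' : q = 0 := by exact_mod_cast hq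
    rw [hq', zero_smul, map_zero, smul_zero]
  · exact h (π j) (hπ.mem j) (hπ.idem j) (2 * i - 1) i (by omega) (fun a ha => by
      rw [hπ.proj j _ a ha, if_neg (by omega)]) x hx hcl

lemma eq_zero_of_blocks {π : ℕ → C.CH (X.prod X)} (h : W.IsCK X π) {γ : C.CH (X.prod X)}
    (h0 : ∀ a b, C.comp (C.comp (π a) γ) (π b) = 0) : γ = 0 := by
  rw [← C.comp_diagC γ, ← h.sum, C.comp_sum]
  refine Finset.sum_eq_zero fun b _ => ?_
  rw [← C.diagC_comp (C.comp γ (π b)), ← h.sum, C.sum_comp]
  exact Finset.sum_eq_zero fun a _ => by rw [← C.comp_assoc]; exact h0 a b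

theorem lowersByOne_of_onePiece (hS : OnePiece W (X.prod X)) {π : ℕ → C.CH (X.prod X)}
    (h : W.IsCK X π) : LowersByOne W X (degCK π) := by
  intro γ hγ
  apply eq_zero_of_blocks h
  intro a b
  have e1 : C.comp (C.comp (π a) (C.comp γ (degCK π))) (π b) =
      (b : ℚ) • C.comp (C.comp (π a) γ) (π b) := by
    rw [← C.comp_assoc (π a) γ, C.comp_assoc _ (degCK π), degCK_comp h, C.comp_smul]
  have e2 : C.comp (C.comp (π a) (C.comp (degCK π) γ)) (π b) =
      (a : ℚ) • C.comp (C.comp (π a) γ) (π b) := by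
    rw [← C.comp_assoc (π a) (degCK π), comp_degCK h, C.smul_comp, C.smul_comp]
  rw [adOp_apply, one_smul, C.comp_add, comp_sub, C.add_comp, sub_comp, e1, e2]
  by_cases hab : b + 1 = a
  · have : (a : ℚ) = b + 1 := by rw [← hab]; push_cast; rfl
    rw [this]
    module
  · have hz : C.comp (C.comp (π a) γ) (π b) = 0 := by
      by_cases ha : 2 * X.dim < a
      · rw [h.eq_zero ha, C.zero_comp, C.zero_comp]
      by_cases hb : 2 * X.dim < b
      · rw [h.eq_zero hb, C.comp_zero]
      have hCK := h.transp.prod h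
      have hg : HomTriv W X (C.comp (C.comp (π a) γ) (π b)) :=
        (hγ.comp_left (h.mem a)).comp_right (h.mem b)
      have h1 := hS _ hCK X.dim (2 * X.dim - a + b) (by omega) _ hg.1
        (cl_eq_zero_of_isZeroMap hg.2)
      rw [act_prodCK_block h h (by omega), zero_smul] at h1
      exact h1
    rw [hz]
    simp

theorem one_tfae (hP : C.Polarized) :
    List.TFAE [∀ X : 𝒱.Obj, ∃ d, W.IsDegree X d ∧ LowersByOne W X d,
      W.Kunneth ∧ ∀ (X : 𝒱.Obj) d, W.IsDegree X d → LowersByOne W X d,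
      W.Kunneth ∧ ∀ (X : 𝒱.Obj) d, W.IsDegree X d → ActsByWeight W X d,
      ∀ X : 𝒱.Obj, W.HasCK X ∧ VanishingForMotives W X,
      ∀ X : 𝒱.Obj, W.HasCK X ∧ OnePiece W X] := by
  tfae_have 1 → 2 := by
    intro h
    refine ⟨fun X j => ?_, fun X d' hd' => ?_⟩
    · obtain ⟨d, hd, hL⟩ := h X
      have hCK := lagCK_isCK hd (hL.pol_eq hd)
      exact ⟨lagCK d j, hCK.mem j, hCK.proj j⟩
    · obtain ⟨d, hd, hL⟩ := h X
      exact hL.all hd hd'
  tfae_have 2 → 3 := fun ⟨hK, h⟩ => ⟨hK, fun X d hd => (h X d hd).actsByWeight hP hd⟩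
  tfae_have 3 → 1 := by
    rintro ⟨hK, h⟩ X
    obtain ⟨d, hd⟩ := hK.exists_degree X
    exact ⟨d, hd, lowersByOne_of_square (h _ _ (W.isDegree_degHom hd hd))⟩
  tfae_have 1 → 4 := by
    intro h X
    obtain ⟨d, hd, hL⟩ := h X
    exact ⟨⟨_, lagCK_isCK hd (hL.pol_eq hd)⟩, fun p hp _ => hL.vanishingForAll hP hd p hp⟩
  tfae_have 4 → 5 := fun h X => ⟨(h X).1, onePiece_of hP (h X).2⟩
  tfae_have 5 → 1 := by
    intro h X
    obtain ⟨π, hπ⟩ := (h X).1
    exact ⟨degCK π, degCK_isDegree hπ, lowersByOne_of_onePiece (h (X.prod X)).2 hπ⟩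
  tfae_finish

theorem vanishingForVariety_of (h : VanishingForAll W X) : VanishingForVariety W X := by
  intro j m hjm hj x hx hcl
  have h1 := h (C.diagC X) (C.diagC_mem X) j m hjm (fun a ha => by
    rw [hj a ha, map_zero]) x hx hcl
  rwa [C.act_diagC, zero_smul] at h1

end Pool.Agent.R368
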